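import Mathlib
import Pool.Agent.H826Z.TreeLikeDefs
import Pool.Agent.H826Z.TreeLikeMain
import Pool.Agent.H826Z.TreeLikeExists

/-!
No pair `(m, n)` with `2 ≤ m, n ≤ ℵ₀` and at least one of `m, n` infinite has an amenable
automorphism group `Aut(T_{m,n})`.
-/

set_option autoImplicit false

namespace Pool.Agent.Results.MP_75f5df_co.AutNotAmenable

open Cardinal Pool.Agent.H826Z.TreeLike

/-- For `2 ≤ m, n ≤ ℵ₀` with `m = ℵ₀` or `n = ℵ₀`, the tree-like graph `T_{m,n}` exists, and its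
automorphism group with the topology of pointwise convergence is not amenable. -/
theorem result (m n : Cardinal.{0}) (hm : 2 ≤ m) (_hm' : m ≤ ℵ₀) (hn : 2 ≤ n) (_hn' : n ≤ ℵ₀)
    (hinf : m = ℵ₀ ∨ n = ℵ₀) :
    (∃ (V : Type) (G : SimpleGraph V), IsTreeLike G m n) ∧
    ∀ (V : Type) (G : SimpleGraph V), IsTreeLike G m n →
      ¬ IsAmenable (G ≃g G) (pointwiseTop G) :=
  ⟨exists_treeLike hm hn, fun _ _ hG => not_amenable hm hn hinf hG⟩

end Pool.Agent.Results.MP_75f5df_co.AutNotAmenable
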